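import Mathlib

/-!
# Counting solutions of `∑ w i * f i + s = m`

For positive weights `w`, the generating function of the number of `f : Fin k → ℕ` with
`∑ i, w i * f i + s = m` is `X ^ s / ∏ (1 - X ^ w i)`.
-/

set_option autoImplicit false

namespace Q44.Ehr

open PowerSeries

/-- the solutions -/
def sols {k : ℕ} (w : Fin k → ℕ) (s m : ℕ) : Set (Fin k → ℕ) :=
  {f | ∑ i, w i * f i + s = m}

theorem sols_finite {k : ℕ} (w : Fin k → ℕ) (hw : ∀ i, 1 ≤ w i) (s m : ℕ) :
    (sols w s m).Finite := by
  apply (Set.finite_Iic (fun _ : Fin k => m)).subset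
  intro f hf i
  have h1 : w i * f i ≤ ∑ j, w j * f j :=
    Finset.single_le_sum (f := fun j => w j * f j) (fun j _ => Nat.zero_le _) (Finset.mem_univ i)
  have h2 : ∑ i, w i * f i + s = m := hf
  have h3 := hw i
  show f i ≤ m
  nlinarith

/-- the generating function of the number of solutions -/
noncomputable def gf {k : ℕ} (w : Fin k → ℕ) (s : ℕ) : PowerSeries ℤ :=
  PowerSeries.mk fun m => ((sols w s m).ncard : ℤ)

theorem gf_zero (w : Fin 0 → ℕ) (s : ℕ) : gf w s = X ^ s := by
  ext m
  rw [gf, coeff_mk, coeff_X_pow]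
  by_cases h : m = s
  · have h1 : sols w s m = Set.univ := by
      ext f; simp [sols, h]
    rw [h1, if_pos h]
    simp
  · have h1 : sols w s m = ∅ := by
      ext f; simp [sols]; omega
    rw [h1, if_neg h]
    simp

theorem ncard_succ {k : ℕ} (w : Fin (k + 1) → ℕ) (hw : ∀ i, 1 ≤ w i) (s m : ℕ) :
    (sols w s m).ncard = (sols (fun i => w i.succ) s m).ncard +
      (if w 0 ≤ m then (sols w s (m - w 0)).ncard else 0) := by
  have hA : ((fun f : Fin k → ℕ => (Fin.cons 0 f : Fin (k + 1) → ℕ)) ''
      sols (fun i => w i.succ) s m).ncard = (sols (fun i => w i.succ) s m).ncard :=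
    Set.ncard_image_of_injective _ (fun a b h => (Fin.cons_injective2 h).2)
  have hinj : Function.Injective (fun f : Fin (k + 1) → ℕ =>
      (Fin.cons (f 0 + 1) (fun i => f i.succ) : Fin (k + 1) → ℕ)) := by
    intro f g h
    have h' := Fin.cons_injective2 h
    funext i
    refine Fin.cases ?_ (fun j => ?_) i
    · have := h'.1; omega
    · exact congrFun h'.2 j
  by_cases hm : w 0 ≤ m
  · rw [if_pos hm]
    have hB := Set.ncard_image_of_injective (sols w s (m - w 0)) hinj
    have hd : Disjoint ((fun f : Fin k → ℕ => (Fin.cons 0 f : Fin (k + 1) → ℕ)) ''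
        sols (fun i => w i.succ) s m) ((fun f : Fin (k + 1) → ℕ =>
          (Fin.cons (f 0 + 1) (fun i => f i.succ) : Fin (k + 1) → ℕ)) '' sols w s (m - w 0)) := by
      rw [Set.disjoint_left]
      rintro _ ⟨g, _, rfl⟩ ⟨g', _, h⟩
      have := congrFun h 0
      simp at this
    rw [← hA, ← hB, ← Set.ncard_union_eq hd ((sols_finite _ (fun i => hw i.succ) s m).image _)
      ((sols_finite _ hw s _).image _)]
    · congr 1
      ext f
      simp only [Set.mem_union, Set.mem_image, sols, Set.mem_ofPred_eq, Fin.sum_univ_succ]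
      constructor
      · intro h
        rcases Nat.eq_zero_or_pos (f 0) with h0 | h0
        · left
          refine ⟨fun i => f i.succ, ?_, ?_⟩
          · rw [h0] at h; beta_reduce; omega
          · funext i
            refine Fin.cases ?_ (fun j => ?_) i
            · simp [h0]
            · simp
        · right
          refine ⟨Fin.cons (f 0 - 1) (fun i => f i.succ), ?_, ?_⟩
          · simp only [Fin.cons_zero, Fin.cons_succ]
            obtain ⟨n, hn⟩ : ∃ n, f 0 = n + 1 := ⟨f 0 - 1, by omega⟩
            rw [hn] at h ⊢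
            rw [Nat.add_sub_cancel]
            rw [Nat.mul_add, Nat.mul_one] at h
            omega
          · funext i
            refine Fin.cases ?_ (fun j => ?_) i
            · simp; omega
            · simp
      · rintro (⟨g, hg, rfl⟩ | ⟨g, hg, rfl⟩)
        · simp only [Fin.cons_zero, Fin.cons_succ]; omega
        · simp only [Fin.cons_zero, Fin.cons_succ]
          rw [Nat.mul_add, Nat.mul_one]; omega
  · rw [if_neg hm, add_zero, ← hA]
    congr 1
    ext f
    simp only [Set.mem_image, sols, Set.mem_ofPred_eq, Fin.sum_univ_succ]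
    constructor
    · intro h
      have h0 : f 0 = 0 := by
        by_contra h0
        have h1 : w 0 * 1 ≤ w 0 * f 0 := Nat.mul_le_mul_left _ (by omega)
        omega
      refine ⟨fun i => f i.succ, ?_, ?_⟩
      · rw [h0] at h; beta_reduce; omega
      · funext i
        refine Fin.cases ?_ (fun j => ?_) i
        · simp [h0]
        · simp
    · rintro ⟨g, hg, rfl⟩
      simp only [Fin.cons_zero, Fin.cons_succ]; omega

theorem gf_succ {k : ℕ} (w : Fin (k + 1) → ℕ) (hw : ∀ i, 1 ≤ w i) (s : ℕ) :
    gf w s * (1 - X ^ w 0) = gf (fun i => w i.succ) s := by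
  ext m
  rw [mul_sub, mul_one, map_sub, coeff_mul_X_pow', gf, gf, coeff_mk, coeff_mk,
    ncard_succ w hw s m]
  split_ifs with h
  · rw [coeff_mk]; push_cast; ring
  · simp

theorem gf_mul {k : ℕ} (w : Fin k → ℕ) (hw : ∀ i, 1 ≤ w i) (s : ℕ) :
    gf w s * ∏ i, (1 - X ^ w i) = X ^ s := by
  induction k with
  | zero => simp [gf_zero]
  | succ k ih =>
    rw [Fin.prod_univ_succ, ← mul_assoc, gf_succ w hw s]
    exact ih _ (fun i => hw i.succ)

end Q44.Ehr
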