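import Pool.Agent.Q44.Ehr.Count

/-!
# Two triangles exchanged by an involution

`P` is the convex hull in `ℝ⁴` of the triangle with vertices `(1,0), (0,1), (1,1)` in the first two
coordinates and its copy in the last two coordinates. The group with two elements exchanges the
two copies. Its equivariant `h*`-series is `1 + χ z + z ^ 2` with `χ` the sign character.
-/

set_option autoImplicit false

open scoped Pointwise
open PowerSeries

namespace Q44.Ehr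

/-- A point which is a combination of lattice points with natural coefficients of sum `m` lies in
the `m`-th dilate of the convex hull. -/
theorem mem_smul_hull {k n : ℕ} (v : Fin k → Fin n → ℤ) (c : Fin k → ℕ) (m : ℕ)
    (hm : ∑ i, c i = m) (x : Fin n → ℤ) (hx : ∀ j, x j = ∑ i, (c i : ℤ) * v i j)
    (V : Set (Fin n → ℝ)) (hV : ∀ i, (fun j => ((v i j : ℤ) : ℝ)) ∈ V) (hne : V.Nonempty) :
    (fun j => ((x j : ℤ) : ℝ)) ∈ (m : ℝ) • convexHull ℝ V := by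
  rcases Nat.eq_zero_or_pos m with h0 | h0
  · have hc : ∀ i, c i = 0 := by
      intro i
      have h1 : c i ≤ ∑ j, c j := Finset.single_le_sum (fun _ _ => Nat.zero_le _) (Finset.mem_univ i)
      omega
    obtain ⟨y, hy⟩ := hne
    refine ⟨y, subset_convexHull ℝ V hy, ?_⟩
    funext j
    simp [hx j, hc, h0]
  · have hm0 : (m : ℝ) ≠ 0 := by positivity
    refine ⟨∑ i, ((c i : ℝ) / m) • (fun j => ((v i j : ℤ) : ℝ)), ?_, ?_⟩
    · apply (convex_convexHull ℝ V).sum_mem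
      · intro i _; positivity
      · rw [← Finset.sum_div, div_eq_one_iff_eq hm0, ← hm]; push_cast; rfl
      · intro i _; exact subset_convexHull ℝ V (hV i)
    · funext j
      simp only [Pi.smul_apply, Finset.sum_apply, smul_eq_mul, hx j]
      rw [Finset.mul_sum]
      push_cast
      apply Finset.sum_congr rfl
      intro i _
      field_simp

/-- the exchange -/
def A : Matrix (Fin 4) (Fin 4) ℤ := !![0,0,1,0;0,0,0,1;1,0,0,0;0,1,0,0]

theorem A_mul : A * A = 1 := by decide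

theorem A_mulVec (x : Fin 4 → ℤ) : Matrix.mulVec A x = ![x 2, x 3, x 0, x 1] := by
  funext j
  fin_cases j <;> simp [A, Matrix.mulVec, dotProduct, Fin.sum_univ_succ]

/-- the vertices -/
def v : Fin 6 → Fin 4 → ℤ :=
  ![![1,0,0,0],![0,1,0,0],![0,0,1,1],![0,0,1,0],![0,0,0,1],![1,1,0,0]]

/-- the set of vertices -/
def V : Finset (Fin 4 → ℤ) := Finset.univ.image v

/-- the polytope -/
def P : Set (Fin 4 → ℝ) :=
  convexHull ℝ ((fun v : Fin 4 → ℤ => fun j => ((v j : ℤ) : ℝ)) '' (V : Set (Fin 4 → ℤ)))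

theorem v_mem (i : Fin 6) : (fun j => ((v i j : ℤ) : ℝ)) ∈
    ((fun v : Fin 4 → ℤ => fun j => ((v j : ℤ) : ℝ)) '' (V : Set (Fin 4 → ℤ))) :=
  ⟨v i, by simp [V], rfl⟩

/-- the inequalities -/
def K : Set (Fin 4 → ℝ) := {y | 0 ≤ y 0 ∧ 0 ≤ y 1 ∧ 0 ≤ y 2 ∧ 0 ≤ y 3 ∧ y 0 + y 2 ≤ 1 ∧
  y 0 + y 3 ≤ 1 ∧ y 1 + y 2 ≤ 1 ∧ y 1 + y 3 ≤ 1 ∧ 1 ≤ y 0 + y 1 + y 2 + y 3}

theorem K_convex : Convex ℝ K := by
  rintro x ⟨h0, h1, h2, h3, h4, h5, h6, h7, h8⟩ y ⟨g0, g1, g2, g3, g4, g5, g6, g7, g8⟩ a b ha hb hab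
  refine ⟨?_, ?_, ?_, ?_, ?_, ?_, ?_, ?_, ?_⟩ <;>
    simp only [Pi.add_apply, Pi.smul_apply, smul_eq_mul] <;> nlinarith

theorem P_sub : P ⊆ K := by
  apply convexHull_min _ K_convex
  rintro _ ⟨w, hw, rfl⟩
  simp only [V, Finset.coe_image, Set.mem_image, Finset.coe_univ, Set.mem_univ, true_and] at hw
  obtain ⟨i, rfl⟩ := hw
  fin_cases i <;> simp [v, K]

theorem mem_iff (m : ℕ) (x : Fin 4 → ℤ) :
    (fun j => ((x j : ℤ) : ℝ)) ∈ (m : ℝ) • P ↔
      (0 ≤ x 0 ∧ 0 ≤ x 1 ∧ 0 ≤ x 2 ∧ 0 ≤ x 3 ∧ x 0 + x 2 ≤ m ∧ x 0 + x 3 ≤ m ∧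
        x 1 + x 2 ≤ m ∧ x 1 + x 3 ≤ m ∧ m ≤ x 0 + x 1 + x 2 + x 3) := by
  constructor
  · rintro ⟨y, hy, h⟩
    obtain ⟨h0, h1, h2, h3, h4, h5, h6, h7, h8⟩ := P_sub hy
    have hm : (0 : ℝ) ≤ m := Nat.cast_nonneg m
    have e : ∀ j, ((x j : ℤ) : ℝ) = m * y j := fun j => (congrFun h j).symm
    have key : (0 : ℝ) ≤ x 0 ∧ (0 : ℝ) ≤ x 1 ∧ (0 : ℝ) ≤ x 2 ∧ (0 : ℝ) ≤ x 3 ∧
        (x 0 + x 2 : ℝ) ≤ m ∧ (x 0 + x 3 : ℝ) ≤ m ∧ (x 1 + x 2 : ℝ) ≤ m ∧ (x 1 + x 3 : ℝ) ≤ m ∧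
        (m : ℝ) ≤ x 0 + x 1 + x 2 + x 3 := by
      rw [e 0, e 1, e 2, e 3]
      refine ⟨?_, ?_, ?_, ?_, ?_, ?_, ?_, ?_, ?_⟩ <;> nlinarith
    exact_mod_cast key
  · rintro ⟨h0, h1, h2, h3, h4, h5, h6, h7, h8⟩
    obtain ⟨b, hb⟩ : ∃ b : ℤ, b = min (min (x 0) (x 1)) (x 0 + x 1 + x 2 + x 3 - m) := ⟨_, rfl⟩
    obtain ⟨s, hs⟩ : ∃ s : ℤ, s = x 0 + x 1 + x 2 + x 3 - m := ⟨_, rfl⟩
    refine mem_smul_hull v ![(x 0 - b).toNat, (x 1 - b).toNat, (s - b).toNat,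
      (x 2 - (s - b)).toNat, (x 3 - (s - b)).toNat, b.toNat] m ?_ x ?_ _ v_mem ⟨_, v_mem 0⟩
    · simp [Fin.sum_univ_succ]; omega
    · intro j
      fin_cases j <;> simp [Fin.sum_univ_succ, v] <;> omega

/-- lattice points of the `m`-th dilate, by inequalities -/
def S (m : ℕ) : Set (Fin 4 → ℤ) :=
  {x | 0 ≤ x 0 ∧ 0 ≤ x 1 ∧ 0 ≤ x 2 ∧ 0 ≤ x 3 ∧ x 0 + x 2 ≤ m ∧ x 0 + x 3 ≤ m ∧
        x 1 + x 2 ≤ m ∧ x 1 + x 3 ≤ m ∧ m ≤ x 0 + x 1 + x 2 + x 3}

def F1 (f : Fin 5 → ℕ) : Fin 4 → ℤ := ![f 4, f 0 + f 4, f 1 + f 2, f 1 + f 3]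
def F2 (f : Fin 5 → ℕ) : Fin 4 → ℤ := ![f 0 + 1 + f 4, f 4, f 1 + f 2, f 1 + f 3]
def F3 (f : Fin 5 → ℕ) : Fin 4 → ℤ := ![f 0 + 1 + f 4, f 1 + 1 + f 4, f 2, f 3]

/-- weights -/
def w5 : Fin 5 → ℕ := fun _ => 1
def w3 : Fin 3 → ℕ := fun _ => 2

theorem S_eq (m : ℕ) : S m = F1 '' sols w5 0 m ∪ (F2 '' sols w5 1 m ∪ F3 '' sols w5 2 m) := by
  ext x
  simp only [S, Set.mem_ofPred_eq, Set.mem_union, Set.mem_image, sols, Fin.sum_univ_five, w5,
    one_mul]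
  constructor
  · rintro ⟨h0, h1, h2, h3, h4, h5, h6, h7, h8⟩
    obtain ⟨s, hs⟩ : ∃ s : ℤ, s = x 0 + x 1 + x 2 + x 3 - m := ⟨_, rfl⟩
    by_cases c1 : x 0 ≤ x 1 ∧ x 0 ≤ s
    · left
      refine ⟨![(x 1 - x 0).toNat, (s - x 0).toNat, (x 2 - (s - x 0)).toNat,
        (x 3 - (s - x 0)).toNat, (x 0).toNat], ?_, ?_⟩
      · simp; omega
      · funext j
        fin_cases j <;> simp [F1] <;> omega
    · right
      by_cases c2 : x 1 ≤ s
      · left
        refine ⟨![(x 0 - x 1 - 1).toNat, (s - x 1).toNat, (x 2 - (s - x 1)).toNat,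
          (x 3 - (s - x 1)).toNat, (x 1).toNat], ?_, ?_⟩
        · simp; omega
        · funext j
          fin_cases j <;> simp [F2] <;> omega
      · right
        refine ⟨![(x 0 - s - 1).toNat, (x 1 - s - 1).toNat, (x 2).toNat,
          (x 3).toNat, s.toNat], ?_, ?_⟩
        · simp; omega
        · funext j
          fin_cases j <;> simp [F3] <;> omega
  · rintro (⟨f, hf, rfl⟩ | ⟨f, hf, rfl⟩ | ⟨f, hf, rfl⟩) <;>
      refine ⟨?_, ?_, ?_, ?_, ?_, ?_, ?_, ?_, ?_⟩ <;> simp [F1, F2, F3] <;> omega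

theorem F1_inj (m : ℕ) : Set.InjOn F1 (sols w5 0 m) := by
  intro f hf g hg h
  simp only [sols, Set.mem_ofPred_eq, Fin.sum_univ_five, w5, one_mul] at hf hg
  have e0 := congrFun h 0
  have e1 := congrFun h 1
  have e2 := congrFun h 2
  have e3 := congrFun h 3
  simp [F1] at e0 e1 e2 e3
  funext i
  fin_cases i <;> simp <;> omega

theorem F2_inj (m : ℕ) : Set.InjOn F2 (sols w5 1 m) := by
  intro f hf g hg h
  simp only [sols, Set.mem_ofPred_eq, Fin.sum_univ_five, w5, one_mul] at hf hg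
  have e0 := congrFun h 0
  have e1 := congrFun h 1
  have e2 := congrFun h 2
  have e3 := congrFun h 3
  simp [F2] at e0 e1 e2 e3
  funext i
  fin_cases i <;> simp <;> omega

theorem F3_inj (m : ℕ) : Set.InjOn F3 (sols w5 2 m) := by
  intro f hf g hg h
  simp only [sols, Set.mem_ofPred_eq, Fin.sum_univ_five, w5, one_mul] at hf hg
  have e0 := congrFun h 0
  have e1 := congrFun h 1
  have e2 := congrFun h 2
  have e3 := congrFun h 3
  simp [F3] at e0 e1 e2 e3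
  funext i
  fin_cases i <;> simp <;> omega

theorem fin5 (s m : ℕ) : (sols w5 s m).Finite := sols_finite _ (fun _ => le_refl _) s m
theorem fin3 (s m : ℕ) : (sols w3 s m).Finite := sols_finite _ (fun _ => by simp [w3]) s m

theorem S_card (m : ℕ) : (S m).ncard =
    (sols w5 0 m).ncard + ((sols w5 1 m).ncard + (sols w5 2 m).ncard) := by
  have d1 : Disjoint (F2 '' sols w5 1 m) (F3 '' sols w5 2 m) := by
    rw [Set.disjoint_left]
    rintro _ ⟨f, hf, rfl⟩ ⟨g, hg, h⟩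
    simp only [sols, Set.mem_ofPred_eq, Fin.sum_univ_five, w5, one_mul] at hf hg
    have e0 := congrFun h 0
    have e1 := congrFun h 1
    have e2 := congrFun h 2
    have e3 := congrFun h 3
    simp [F3, F2] at e0 e1 e2 e3
    omega
  have d2 : Disjoint (F1 '' sols w5 0 m) (F2 '' sols w5 1 m ∪ F3 '' sols w5 2 m) := by
    rw [Set.disjoint_left]
    rintro _ ⟨f, hf, rfl⟩ (⟨g, hg, h⟩ | ⟨g, hg, h⟩) <;>
    · simp only [sols, Set.mem_ofPred_eq, Fin.sum_univ_five, w5, one_mul] at hf hg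
      have e0 := congrFun h 0
      have e1 := congrFun h 1
      have e2 := congrFun h 2
      have e3 := congrFun h 3
      simp [F3, F2, F1] at e0 e1 e2 e3
      omega
  rw [S_eq, ← (F1_inj m).ncard_image, ← (F2_inj m).ncard_image, ← (F3_inj m).ncard_image,
    Set.ncard_union_eq d2 ((fin5 _ _).image _) (((fin5 _ _).image _).union ((fin5 _ _).image _)),
    Set.ncard_union_eq d1 ((fin5 _ _).image _) ((fin5 _ _).image _)]

/-- fixed lattice points -/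
def T (m : ℕ) : Set (Fin 4 → ℤ) := {x | x ∈ S m ∧ Matrix.mulVec A x = x}

def G0 (f : Fin 3 → ℕ) : Fin 4 → ℤ := ![f 0 + f 2, f 1 + f 2, f 0 + f 2, f 1 + f 2]
def G1 (f : Fin 3 → ℕ) : Fin 4 → ℤ :=
  ![f 0 + f 2 + 1, f 1 + f 2 + 1, f 0 + f 2 + 1, f 1 + f 2 + 1]

theorem T_iff (m : ℕ) (x : Fin 4 → ℤ) : x ∈ T m ↔
    (x 2 = x 0 ∧ x 3 = x 1 ∧ 2 * x 0 ≤ m ∧ 2 * x 1 ≤ m ∧ m ≤ 2 * x 0 + 2 * x 1) := by
  simp only [T, S, Set.mem_ofPred_eq, A_mulVec]
  constructor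
  · rintro ⟨h, e⟩
    have e0 := congrFun e 0
    have e1 := congrFun e 1
    simp at e0 e1
    omega
  · rintro h
    refine ⟨by omega, ?_⟩
    funext j
    fin_cases j <;> simp <;> omega

theorem T_eq (m : ℕ) : T m = G0 '' sols w3 0 m ∪ G1 '' sols w3 3 m := by
  ext x
  rw [T_iff]
  simp only [Set.mem_union, Set.mem_image, sols, Set.mem_ofPred_eq, Fin.sum_univ_three, w3]
  constructor
  · rintro ⟨h0, h1, h2, h3, h4⟩
    rcases Nat.even_or_odd' m with ⟨k, hk | hk⟩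
    · left
      refine ⟨![(k - x 1).toNat, (k - x 0).toNat, (x 0 + x 1 - k).toNat], ?_, ?_⟩
      · simp; omega
      · funext j
        fin_cases j <;> simp [G0] <;> omega
    · right
      refine ⟨![(k - x 1).toNat, (k - x 0).toNat, (x 0 + x 1 - k - 1).toNat], ?_, ?_⟩
      · simp; omega
      · funext j
        fin_cases j <;> simp [G1] <;> omega
  · rintro (⟨f, hf, rfl⟩ | ⟨f, hf, rfl⟩) <;>
      refine ⟨?_, ?_, ?_, ?_, ?_⟩ <;> simp [G0, G1] <;> omega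

theorem T_card (m : ℕ) : (T m).ncard = (sols w3 0 m).ncard + (sols w3 3 m).ncard := by
  have i0 : Set.InjOn G0 (sols w3 0 m) := by
    intro f hf g hg h
    simp only [sols, Set.mem_ofPred_eq, Fin.sum_univ_three, w3] at hf hg
    have e0 := congrFun h 0
    have e1 := congrFun h 1
    simp [G0] at e0 e1
    funext i
    fin_cases i <;> simp <;> omega
  have i1 : Set.InjOn G1 (sols w3 3 m) := by
    intro f hf g hg h
    simp only [sols, Set.mem_ofPred_eq, Fin.sum_univ_three, w3] at hf hg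
    have e0 := congrFun h 0
    have e1 := congrFun h 1
    simp [G1] at e0 e1
    funext i
    fin_cases i <;> simp <;> omega
  have d : Disjoint (G0 '' sols w3 0 m) (G1 '' sols w3 3 m) := by
    rw [Set.disjoint_left]
    rintro _ ⟨f, hf, rfl⟩ ⟨g, hg, h⟩
    simp only [sols, Set.mem_ofPred_eq, Fin.sum_univ_three, w3] at hf hg
    omega
  rw [T_eq, ← i0.ncard_image, ← i1.ncard_image,
    Set.ncard_union_eq d ((fin3 _ _).image _) ((fin3 _ _).image _)]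

theorem ser_S : (PowerSeries.mk fun m => ((S m).ncard : ℤ)) * (1 - X) ^ 5 = 1 + X + X ^ 2 := by
  have h : (PowerSeries.mk fun m => ((S m).ncard : ℤ)) = gf w5 0 + gf w5 1 + gf w5 2 := by
    ext m
    simp only [gf, map_add, coeff_mk, S_card]
    push_cast
    ring
  have e : ∀ s, gf w5 s * (1 - X) ^ 5 = X ^ s := by
    intro s
    have := gf_mul w5 (fun _ => le_refl _) s
    simpa [w5] using this
  rw [h, add_mul, add_mul, e, e, e, pow_zero, pow_one]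

theorem ser_T : (PowerSeries.mk fun m => ((T m).ncard : ℤ)) * ((1 - X) * (1 - X ^ 2) ^ 2) =
    1 - X + X ^ 2 := by
  have h : (PowerSeries.mk fun m => ((T m).ncard : ℤ)) = gf w3 0 + gf w3 3 := by
    ext m
    simp only [gf, map_add, coeff_mk, T_card]
    push_cast
    ring
  have e : ∀ s, gf w3 s * (1 - X ^ 2) ^ 3 = X ^ s := by
    intro s
    have := gf_mul w3 (fun _ => by simp [w3]) s
    simpa [w3] using this
  have hX : (1 + X : PowerSeries ℤ) ≠ 0 := by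
    intro h0
    have := congrArg (PowerSeries.coeff 0) h0
    simp at this
  apply mul_right_cancel₀ hX
  have e0 := e 0
  have e3 := e 3
  rw [h]
  calc (gf w3 0 + gf w3 3) * ((1 - X) * (1 - X ^ 2) ^ 2) * (1 + X)
      = gf w3 0 * (1 - X ^ 2) ^ 3 + gf w3 3 * (1 - X ^ 2) ^ 3 := by ring
    _ = X ^ 0 + X ^ 3 := by rw [e0, e3]
    _ = (1 - X + X ^ 2) * (1 + X) := by ring

end Q44.Ehr
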